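import Pool.Agent.H82.PRP.Stmts

/-!
# FREE: existence of the free pro-p group of rank three with its filtration
-/

namespace Pool.Agent.H82.PRP.FREE

open Pool.Agent.H82.PRP

section constr

variable {G : Type} [Group G] (E : ℕ → Subgroup G) [hN : ∀ n, (E n).Normal]

/-- the quotient `G / E n` (as a discrete space) -/
def Quo (n : ℕ) : Type := G ⧸ E n

instance (n : ℕ) : Group (Quo E n) := inferInstanceAs (Group (G ⧸ E n))
instance (n : ℕ) : TopologicalSpace (Quo E n) := ⊥
instance (n : ℕ) : DiscreteTopology (Quo E n) := ⟨rfl⟩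

/-- the quotient map -/
def mkQ (n : ℕ) : G →* Quo E n := QuotientGroup.mk' (E n)

theorem mkQ_surj (n : ℕ) : Function.Surjective (mkQ E n) := QuotientGroup.mk'_surjective (E n)

theorem mkQ_eq_one (n : ℕ) (g : G) : mkQ E n g = 1 ↔ g ∈ E n := QuotientGroup.eq_one_iff g

/-- the transition maps -/
def tr (hE : Antitone E) {n m : ℕ} (h : n ≤ m) : Quo E m →* Quo E n :=
  QuotientGroup.map (E m) (E n) (MonoidHom.id G) (by simpa using hE h)

theorem tr_mk (hE : Antitone E) {n m : ℕ} (h : n ≤ m) (g : G) :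
    tr E hE h (mkQ E m g) = mkQ E n g := rfl

/-- the inverse limit -/
def Fr (hE : Antitone E) : Subgroup (∀ n, Quo E n) where
  carrier := {f | ∀ (n m : ℕ) (h : n ≤ m), tr E hE h (f m) = f n}
  mul_mem' := by
    intro a b ha hb n m h
    simp only [Pi.mul_apply, map_mul]
    rw [ha n m h, hb n m h]
  one_mem' := by
    intro n m h
    simp
  inv_mem' := by
    intro a ha n m h
    simp only [Pi.inv_apply, map_inv]
    rw [ha n m h]

/-- the map `G → lim G / E n` -/
def iota (hE : Antitone E) : G →* Fr E hE where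
  toFun g := ⟨fun n => mkQ E n g, fun n m h => tr_mk E hE h g⟩
  map_one' := by
    ext n
    simp
  map_mul' := by
    intro a b
    ext n
    simp

/-- the projections -/
def prj (hE : Antitone E) (n : ℕ) : Fr E hE →* Quo E n where
  toFun f := f.1 n
  map_one' := rfl
  map_mul' := fun _ _ => rfl

theorem prj_iota (hE : Antitone E) (n : ℕ) (g : G) : prj E hE n (iota E hE g) = mkQ E n g := rfl

theorem prj_surj (hE : Antitone E) (n : ℕ) : Function.Surjective (prj E hE n) := by
  intro q
  obtain ⟨g, rfl⟩ := mkQ_surj E n q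
  exact ⟨iota E hE g, rfl⟩

theorem prj_cont (hE : Antitone E) (n : ℕ) : Continuous (prj E hE n) :=
  (continuous_apply n).comp continuous_subtype_val

theorem prj_le (hE : Antitone E) {n m : ℕ} (h : n ≤ m) (f : Fr E hE) :
    tr E hE h (prj E hE m f) = prj E hE n f := f.2 n m h

/-- representing an element up to level `N` by an element of `G` -/
theorem rep (hE : Antitone E) (N : ℕ) (f : Fr E hE) :
    ∃ g : G, ∀ n ≤ N, prj E hE n f = mkQ E n g := by
  obtain ⟨g, hg⟩ := mkQ_surj E N (prj E hE N f)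
  refine ⟨g, fun n hn => ?_⟩
  rw [← prj_le E hE hn f, ← hg, tr_mk]

theorem closed (hE : Antitone E) : IsClosed (Fr E hE : Set (∀ n, Quo E n)) := by
  have h : (Fr E hE : Set (∀ n, Quo E n)) =
      ⋂ (n : ℕ), ⋂ (m : ℕ), ⋂ (h : n ≤ m), {f : ∀ n, Quo E n | tr E hE h (f m) = f n} := by
    ext f
    simp only [Set.mem_iInter, Set.mem_setOf_eq]
    exact Iff.rfl
  rw [h]
  refine isClosed_iInter fun n => isClosed_iInter fun m => isClosed_iInter fun h => ?_
  refine isClosed_eq ?_ (continuous_apply n)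
  exact (continuous_of_discreteTopology).comp (continuous_apply m)

end constr

end Pool.Agent.H82.PRP.FREE

namespace Pool.Agent.H82.PRP

open FREE in
theorem free_thm (hGAM : GAMStmt) (hAUGB : AUGBStmt) : FREEStmt := by
  intro p hp
  obtain ⟨E, hnor, hanti, hone, hcomm, hpow, hidx, haug, hP⟩ := hGAM p
  haveI : ∀ n, (E n).Normal := hnor
  have hfin : ∀ n, Finite (Quo E n) := by
    intro n
    obtain ⟨k, hk⟩ := hidx n
    have h0 : (E n).index ≠ 0 := by
      rw [hk]
      exact pow_ne_zero _ hp.out.ne_zero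
    haveI : (E n).FiniteIndex := ⟨h0⟩
    exact inferInstanceAs (Finite (FreeGroup (Fin 3) ⧸ E n))
  haveI : ∀ n, Finite (Quo E n) := hfin
  have hcpt : CompactSpace (Fr E hanti) :=
    isCompact_iff_compactSpace.1 (closed E hanti).isCompact
  let gen : Fin 3 → Fr E hanti := fun i => iota E hanti (FreeGroup.of i)
  let D : ℕ → Subgroup (Fr E hanti) := fun n => (prj E hanti n).ker
  have hmem : ∀ n f, f ∈ D n ↔ prj E hanti n f = 1 := fun n f => MonoidHom.mem_ker
  have hDanti : Antitone D := by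
    intro n m h f hf
    rw [hmem] at hf ⊢
    rw [← prj_le E hanti h f, hf, map_one]
  have hrep : ∀ N f, ∃ g, (∀ n ≤ N, prj E hanti n f = mkQ E n g) ∧
      (∀ n ≤ N, f ∈ D n → g ∈ E n) ∧ (iota E hanti g)⁻¹ * f ∈ D N := by
    intro N f
    obtain ⟨g, hg⟩ := rep E hanti N f
    refine ⟨g, hg, fun n hn hf => ?_, ?_⟩
    · rw [hmem, hg n hn, mkQ_eq_one] at hf
      exact hf
    · rw [hmem, map_mul, map_inv, prj_iota, hg N le_rfl, inv_mul_cancel]
  refine ⟨Fr E hanti, inferInstance, inferInstance, inferInstance, hcpt, inferInstance, gen, D, ?_⟩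
  refine ⟨?_, ?_, hDanti, ?_, ?_, ?_, ?_, ?_, ?_, ?_, ?_⟩
  · intro n
    exact MonoidHom.normal_ker _
  · intro n
    have h1 : (D n : Set (Fr E hanti)) = prj E hanti n ⁻¹' {1} := by
      ext f
      exact hmem n f
    rw [h1]
    exact (isOpen_discrete _).preimage (prj_cont E hanti n)
  · rw [eq_top_iff]
    intro f _
    obtain ⟨g, hg, -, -⟩ := hrep 1 f
    rw [hmem, hg 1 le_rfl, mkQ_eq_one, hone]
    exact Subgroup.mem_top g
  · intro U hU h1
    obtain ⟨V, hV, rfl⟩ := isOpen_induced_iff.1 hU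
    obtain ⟨I, u, hu, hI⟩ := isOpen_pi_iff.1 hV _ h1
    refine ⟨I.sup id, fun f hf => hI fun i hi => ?_⟩
    have h2 : f ∈ D i := hDanti (Finset.le_sup (f := id) hi) hf
    rw [hmem] at h2
    change prj E hanti i f ∈ u i
    rw [h2]
    exact (hu i hi).2
  · intro a b g hg h hh
    obtain ⟨γ, h1, h2, -⟩ := hrep (a + b) g
    obtain ⟨η, h3, h4, -⟩ := hrep (a + b) h
    have h5 := hcomm a b γ (h2 a (Nat.le_add_right a b) hg) η (h4 b (Nat.le_add_left b a) hh)
    rw [hmem]
    simp only [map_mul, map_inv]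
    rw [h1 _ le_rfl, h3 _ le_rfl, ← map_inv, ← map_inv, ← map_mul, ← map_mul, ← map_mul,
      mkQ_eq_one]
    exact h5
  · intro a g hg
    have hle : a ≤ p * a := Nat.le_mul_of_pos_left a hp.out.pos
    obtain ⟨γ, h1, h2, -⟩ := hrep (p * a) g
    have h5 := hpow a γ (h2 a hle hg)
    rw [hmem, map_pow, h1 _ le_rfl, ← map_pow, mkQ_eq_one]
    exact h5
  · intro n
    obtain ⟨k, hk⟩ := hidx n
    refine ⟨k, ?_⟩
    rw [← hk]
    have h1 : (D n).index = Nat.card (Quo E n) := by
      change (prj E hanti n).ker.index = _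
      rw [Subgroup.index_ker]
      have h2 : (prj E hanti n).range = ⊤ := MonoidHom.range_eq_top.2 (prj_surj E hanti n)
      rw [h2]
      exact Nat.card_congr (Subgroup.topEquiv (G := Quo E n)).toEquiv
    rw [h1]
    rfl
  · intro n
    rw [eq_top_iff]
    intro f _
    obtain ⟨γ, -, -, h3⟩ := hrep n f
    have h4 : iota E hanti γ ∈ Subgroup.closure (Set.range gen) := by
      have h5 : γ ∈ Subgroup.closure (Set.range (FreeGroup.of (α := Fin 3))) := by
        rw [FreeGroup.closure_range_of]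
        exact Subgroup.mem_top γ
      have h6 : Subgroup.closure (Set.range gen) =
          (Subgroup.closure (Set.range (FreeGroup.of (α := Fin 3)))).map (iota E hanti) := by
        rw [MonoidHom.map_closure, ← Set.range_comp]
        rfl
      rw [h6]
      exact Subgroup.mem_map_of_mem _ h5
    have h7 : f = iota E hanti γ * ((iota E hanti γ)⁻¹ * f) := by group
    rw [h7]
    exact Subgroup.mul_mem_sup h4 h3
  · intro P _ _ hPp y
    obtain ⟨n, hn⟩ := hP P hPp (FreeGroup.lift y)
    let φ₁ : Quo E n →* P := QuotientGroup.lift (E n) (FreeGroup.lift y) hn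
    refine ⟨φ₁.comp (prj E hanti n), ⟨n, ?_⟩, ?_⟩
    · intro f hf
      rw [hmem] at hf
      rw [MonoidHom.mem_ker, MonoidHom.comp_apply, hf, map_one]
    · intro i
      change φ₁ (mkQ E n (FreeGroup.of i)) = y i
      have h1 : φ₁ (mkQ E n (FreeGroup.of i)) = FreeGroup.lift y (FreeGroup.of i) := rfl
      rw [h1, FreeGroup.lift_apply_of]
  · intro P _ _ φ hφ n hn g hg
    obtain ⟨N, hN⟩ := hφ
    obtain ⟨γ, h1, h2, h3⟩ := hrep (max N n) g
    have h4 := h2 n (le_max_right N n) hg
    have h5 := (haug n hn γ).1 h4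
    have h6 : φ g = φ (iota E hanti γ) := by
      have h7 : (iota E hanti γ)⁻¹ * g ∈ φ.ker := hN (hDanti (le_max_left N n) h3)
      rw [MonoidHom.mem_ker, map_mul, map_inv, inv_mul_eq_one] at h7
      exact h7.symm
    have h8 := (hAUGB p (FreeGroup (Fin 3))).2.2.2.2 P (φ.comp (iota E hanti)) n _ h5
    rw [h6]
    have h9 : MonoidAlgebra.mapDomainAlgHom (ZMod p) (ZMod p) (φ.comp (iota E hanti))
        (MonoidAlgebra.of (ZMod p) _ γ - 1) =
        MonoidAlgebra.of (ZMod p) P (φ (iota E hanti γ)) - 1 := by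
      rw [map_sub, map_one]
      simp [MonoidAlgebra.of_apply]
    rw [← h9]
    exact h8

end Pool.Agent.H82.PRP
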