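import Pool.Agent.H82.PRP.Stmts

/-!
# STEP: lifting the solvability property through one central step
-/

namespace Pool.Agent.H82.PRP.STEP

open Pool.Agent.H82.PRP

variable {p : ℕ} {F : Type} [Group F]

/-- right translation by `c` on functions -/
noncomputable def tau (p : ℕ) (c : F) : Module.End (ZMod p) (F → ZMod p) :=
  LinearMap.funLeft (ZMod p) (ZMod p) (fun x => x * c)

theorem tau_apply (c : F) (φ : F → ZMod p) (x : F) : tau p c φ x = φ (x * c) := rfl

theorem tau_pow (c : F) (k : ℕ) (φ : F → ZMod p) (x : F) :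
    (tau p c ^ k) φ x = φ (x * c ^ k) := by
  induction k generalizing x with
  | zero => simp
  | succ k ih =>
    rw [pow_succ', Module.End.mul_apply, tau_apply, ih, mul_assoc, ← pow_succ']

/-- the operator `c - 1` -/
noncomputable def eop (p : ℕ) (c : F) : Module.End (ZMod p) (F → ZMod p) := tau p c - 1

theorem eop_apply (c : F) (φ : F → ZMod p) (x : F) :
    eop p c φ x = φ (x * c) - φ x := by
  rw [eop, LinearMap.sub_apply, Module.End.one_apply]
  rfl

theorem poly1 [Fact p.Prime] :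
    (Polynomial.X - 1 : Polynomial (ZMod p)) ^ p = Polynomial.X ^ p - 1 := by
  rw [sub_pow_char, one_pow]

theorem poly2 [hp : Fact p.Prime] :
    (Polynomial.X - 1 : Polynomial (ZMod p)) ^ (p - 1) =
      ∑ k ∈ Finset.range p, Polynomial.X ^ k := by
  have h : (Polynomial.X - 1 : Polynomial (ZMod p)) ^ (p - 1) * (Polynomial.X - 1) =
      (∑ k ∈ Finset.range p, Polynomial.X ^ k) * (Polynomial.X - 1) := by
    rw [← pow_succ, Nat.sub_add_cancel hp.out.one_le, poly1, geom_sum_mul]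
  have h1 : (Polynomial.X - 1 : Polynomial (ZMod p)) ≠ 0 := by
    have h2 := Polynomial.X_sub_C_ne_zero (1 : ZMod p)
    rwa [Polynomial.C_1] at h2
  exact mul_right_cancel₀ h1 h

theorem eop_pow_p [Fact p.Prime] (c : F) : (eop p c) ^ p = tau p c ^ p - 1 := by
  have h := congrArg (Polynomial.aeval (tau p c)) (poly1 (p := p))
  rw [eop]
  simpa only [map_pow, map_sub, Polynomial.aeval_X, map_one] using h

theorem eop_pow_pred [Fact p.Prime] (c : F) :
    (eop p c) ^ (p - 1) = ∑ k ∈ Finset.range p, tau p c ^ k := by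
  have h := congrArg (Polynomial.aeval (tau p c)) (poly2 (p := p))
  rw [eop]
  simpa only [map_pow, map_sub, map_sum, Polynomial.aeval_X, map_one] using h

theorem eop_pred_apply [Fact p.Prime] (c : F) (φ : F → ZMod p) (x : F) :
    ((eop p c) ^ (p - 1)) φ x = ∑ k ∈ Finset.range p, φ (x * c ^ k) := by
  rw [eop_pow_pred, LinearMap.sum_apply, Finset.sum_apply]
  exact Finset.sum_congr rfl fun k _ => tau_pow c k φ x

theorem eop_p_zero [Fact p.Prime] (c : F) (L : Subgroup F) (hc : c ^ p ∈ L) (φ : F → ZMod p)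
    (hφ : RInv L φ) : ((eop p c) ^ p) φ = 0 := by
  rw [eop_pow_p]
  funext x
  rw [LinearMap.sub_apply, Module.End.one_apply, Pi.sub_apply, tau_pow, hφ x _ hc, sub_self]
  rfl

/-! ### invariance -/

theorem rinv_eop (c : F) (L : Subgroup F) (hL : L.Normal) (φ : F → ZMod p) (hφ : RInv L φ) :
    RInv L (eop p c φ) := by
  intro x l hl
  rw [eop_apply, eop_apply, hφ x l hl]
  have h1 : x * l * c = x * c * (c⁻¹ * l * c) := by group
  have h2 : c⁻¹ * l * c ∈ L := by
    have h3 := hL.conj_mem l hl c⁻¹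
    rwa [inv_inv] at h3
  rw [h1, hφ _ _ h2]

theorem rinv_eop_pow (c : F) (L : Subgroup F) (hL : L.Normal) (i : ℕ) (φ : F → ZMod p)
    (hφ : RInv L φ) : RInv L (((eop p c) ^ i) φ) := by
  induction i generalizing φ with
  | zero => exact hφ
  | succ i ih =>
    rw [pow_succ, Module.End.mul_apply]
    exact ih _ (rinv_eop c L hL φ hφ)

theorem rinv_sup (c : F) (L : Subgroup F) (φ : F → ZMod p) (hφ : RInv L φ)
    (h0 : eop p c φ = 0) : RInv (L ⊔ Subgroup.zpowers c) φ := by
  let S : Subgroup F :=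
    { carrier := {l | ∀ x, φ (x * l) = φ x}
      mul_mem' := by
        intro a b ha hb x
        rw [← mul_assoc, hb, ha]
      one_mem' := by
        intro x
        rw [mul_one]
      inv_mem' := by
        intro a ha x
        have h1 := ha (x * a⁻¹)
        rw [inv_mul_cancel_right] at h1
        exact h1.symm }
  have hLS : L ≤ S := fun l hl x => hφ x l hl
  have hcS : Subgroup.zpowers c ≤ S := by
    rw [Subgroup.zpowers_le]
    intro x
    have h1 := congrFun h0 x
    rw [eop_apply] at h1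
    exact sub_eq_zero.1 h1
  have h := sup_le hLS hcS
  intro x l hl
  exact h hl x

theorem rinv_mono {L M : Subgroup F} (h : L ≤ M) {X : Type} {φ : F → X} (hφ : RInv M φ) :
    RInv L φ := fun x l hl => hφ x l (h hl)

theorem rinv_add {L : Subgroup F} {φ ψ : F → ZMod p} (hφ : RInv L φ) (hψ : RInv L ψ) :
    RInv L (φ + ψ) := fun x l hl => by
  rw [Pi.add_apply, Pi.add_apply, hφ x l hl, hψ x l hl]

theorem rinv_sub {L : Subgroup F} {φ ψ : F → ZMod p} (hφ : RInv L φ) (hψ : RInv L ψ) :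
    RInv L (φ - ψ) := fun x l hl => by
  rw [Pi.sub_apply, Pi.sub_apply, hφ x l hl, hψ x l hl]

/-! ### a transversal -/

theorem zpow_mem_iff [hp : Fact p.Prime] (M : Subgroup F) (hM : M.Normal) (c : F) (hc : c ∉ M)
    (hcp : c ^ p ∈ M) (z : ℤ) : c ^ z ∈ M ↔ (p : ℤ) ∣ z := by
  have h1 : orderOf (QuotientGroup.mk' M c) = p := by
    refine orderOf_eq_prime ?_ ?_
    · rw [← map_pow]
      exact (QuotientGroup.eq_one_iff _).2 hcp
    · intro h2
      exact hc ((QuotientGroup.eq_one_iff _).1 h2)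
  rw [← h1, orderOf_dvd_iff_zpow_eq_one, ← map_zpow]
  exact (QuotientGroup.eq_one_iff _).symm

theorem exists_chi [hp : Fact p.Prime] (M : Subgroup F) (hM : M.Normal) (c : F) (hc : c ∉ M)
    (hcp : c ^ p ∈ M) :
    ∃ χ : F → ZMod p, RInv M χ ∧ ∀ x, ∑ k ∈ Finset.range p, χ (x * c ^ k) = 1 := by
  classical
  let K : Subgroup F := M ⊔ Subgroup.zpowers c
  let q : F → F := fun x => Quotient.out (QuotientGroup.mk x : F ⧸ K)
  have hq : ∀ x, x⁻¹ * q x ∈ K := by
    intro x
    rw [← QuotientGroup.eq]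
    exact (QuotientGroup.out_eq' (QuotientGroup.mk x : F ⧸ K)).symm
  have hq2 : ∀ x, ∀ k ∈ K, q (x * k) = q x := by
    intro x k hk
    change Quotient.out (QuotientGroup.mk (x * k) : F ⧸ K) = _
    rw [QuotientGroup.mk_mul_of_mem x hk]
  refine ⟨fun x => if x⁻¹ * q x ∈ M then 1 else 0, ?_, ?_⟩
  · intro x m hm
    have h1 : q (x * m) = q x := hq2 x m (Subgroup.mem_sup_left hm)
    have h2 : (x * m)⁻¹ * q (x * m) = m⁻¹ * (x⁻¹ * q x) := by
      rw [h1]
      group
    have h3 : (x * m)⁻¹ * q (x * m) ∈ M ↔ x⁻¹ * q x ∈ M := by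
      rw [h2]
      exact Subgroup.mul_mem_cancel_left M (M.inv_mem hm)
    simp only [h3]
  · intro x
    obtain ⟨m, hm, z, hz, hmz⟩ := Subgroup.mem_sup_of_normal_left.1 (hq x)
    obtain ⟨j, rfl⟩ := Subgroup.mem_zpowers_iff.1 hz
    have hk : ∀ k : ℕ, (x * c ^ k)⁻¹ * q (x * c ^ k) ∈ M ↔ ((k : ℕ) : ZMod p) = (j : ZMod p) := by
      intro k
      have h1 : q (x * c ^ k) = q x :=
        hq2 x _ (Subgroup.mem_sup_right (Subgroup.npow_mem_zpowers c k))
      have h2 : (x * c ^ k)⁻¹ * q (x * c ^ k) =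
          ((c ^ k)⁻¹ * m * ((c ^ k)⁻¹)⁻¹) * c ^ (j - (k : ℤ)) := by
        rw [h1, mul_inv_rev, mul_assoc, ← hmz, zpow_sub, zpow_natCast, inv_inv]
        group
      rw [h2, Subgroup.mul_mem_cancel_left M (hM.conj_mem m hm _), zpow_mem_iff M hM c hc hcp,
        ← ZMod.intCast_eq_intCast_iff_dvd_sub]
      simp
    simp only [hk]
    have hj : ((j : ZMod p)).val < p := ZMod.val_lt _
    rw [Finset.sum_eq_single (j : ZMod p).val]
    · rw [ZMod.natCast_val, ZMod.cast_id, if_pos rfl]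
    · intro k hk1 hk2
      rw [if_neg]
      intro hk3
      apply hk2
      rw [← hk3, ZMod.val_natCast_of_lt (Finset.mem_range.1 hk1)]
    · intro h
      exact absurd (Finset.mem_range.2 hj) h

/-! ### derivations -/

theorem der_zero (D : ℕ → Subgroup F) : IsDer D (0 : F → F → ZMod p) :=
  ⟨fun _ _ _ => by simp, ⟨0, fun _ _ _ _ => ⟨rfl, rfl⟩⟩⟩

theorem der_add {D : ℕ → Subgroup F} (hD : Antitone D) {δ δ' : F → F → ZMod p} (h : IsDer D δ)
    (h' : IsDer D δ') : IsDer D (δ + δ') := by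
  refine ⟨fun v w x => ?_, ?_⟩
  · simp only [Pi.add_apply]
    rw [h.mul, h'.mul]
    ring
  · obtain ⟨n, hn⟩ := h.loc
    obtain ⟨m, hm⟩ := h'.loc
    refine ⟨max n m, fun w x d hd => ?_⟩
    have h1 := hn w x d (hD (le_max_left n m) hd)
    have h2 := hm w x d (hD (le_max_right n m) hd)
    simp only [Pi.add_apply]
    rw [h1.1, h1.2, h2.1, h2.2]
    exact ⟨rfl, rfl⟩

theorem der_eop {D : ℕ → Subgroup F} (hDn : ∀ n, (D n).Normal) (c : F) (L : Subgroup F)
    (hcc : ∀ w, c * w * c⁻¹ * w⁻¹ ∈ L) (δ : F → F → ZMod p) (h : IsDer D δ)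
    (hinv : ∀ w, RInv L (δ w)) : IsDer D (fun w => eop p c (δ w)) := by
  refine ⟨fun v w x => ?_, ?_⟩
  · simp only [eop_apply]
    rw [h.mul, h.mul]
    have h1 : x * c * v = x * v * c * (c⁻¹ * v⁻¹ * c⁻¹⁻¹ * v⁻¹⁻¹) := by group
    have h2 : c⁻¹ * v⁻¹ * c⁻¹⁻¹ * v⁻¹⁻¹ ∈ L := by
      have h3 := hcc (c⁻¹ * v⁻¹)
      have h4 : c⁻¹ * v⁻¹ * c⁻¹⁻¹ * v⁻¹⁻¹ = (c * (c⁻¹ * v⁻¹) * c⁻¹ * (c⁻¹ * v⁻¹)⁻¹)⁻¹ := by
        group
      rw [h4]
      exact L.inv_mem h3
    rw [h1, hinv w _ _ h2]
    ring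
  · obtain ⟨n, hn⟩ := h.loc
    refine ⟨n, fun w x d hd => ?_⟩
    simp only [eop_apply]
    rw [(hn w (x * c) d hd).1, (hn w x d hd).1, (hn w x d hd).2]
    have h1 : x * d * c = x * c * (c⁻¹ * d * c⁻¹⁻¹) := by group
    have h2 : c⁻¹ * d * c⁻¹⁻¹ ∈ D n := (hDn n).conj_mem d hd c⁻¹
    rw [h1, (hn w (x * c) _ h2).2]
    exact ⟨rfl, rfl⟩

theorem der_eop_pow {D : ℕ → Subgroup F} (hDn : ∀ n, (D n).Normal) (c : F) (L : Subgroup F)
    (hL : L.Normal) (hcc : ∀ w, c * w * c⁻¹ * w⁻¹ ∈ L) (i : ℕ) (δ : F → F → ZMod p)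
    (h : IsDer D δ) (hinv : ∀ w, RInv L (δ w)) : IsDer D (fun w => ((eop p c) ^ i) (δ w)) := by
  induction i with
  | zero => exact h
  | succ i ih =>
    have h1 := der_eop hDn c L hcc (fun w => ((eop p c) ^ i) (δ w)) ih
      (fun w => rinv_eop_pow c L hL i _ (hinv w))
    have h2 : (fun w => ((eop p c) ^ (i + 1)) (δ w)) =
        fun w => eop p c (((eop p c) ^ i) (δ w)) := by
      funext w
      rw [pow_succ', Module.End.mul_apply]
    rw [h2]
    exact h1

theorem der_one {D : ℕ → Subgroup F} {δ : F → F → ZMod p} (h : IsDer D δ) (x : F) :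
    δ 1 x = 0 := by
  have h1 := h.mul 1 1 x
  rw [mul_one, mul_one] at h1
  exact left_eq_add.1 h1

end Pool.Agent.H82.PRP.STEP

namespace Pool.Agent.H82.PRP

open STEP in
theorem step_thm (hEXT : EXTStmt) (hUNIQ : UNIQStmt) (hDINV : DINVStmt) : STEPStmt := by
  intro p hp F _ _ _ _ _ gen D hF L hL c hcp hcc hcn T r hr hS
  obtain ⟨n0, hn0⟩ := hcn
  haveI : ∀ n, (D n).Normal := hF.normal
  haveI := hL
  have hM : (L ⊔ D n0).Normal := inferInstance
  obtain ⟨χ, hχM, hχs⟩ := exists_chi (p := p) (L ⊔ D n0) hM c hn0 (Subgroup.mem_sup_left hcp)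
  have key : ∀ i ≤ p, ∀ f : T → F → ZMod p, {t | f t ≠ 0}.Finite →
      (∃ n, ∀ t, RInv (D n) (f t)) → (∀ t, RInv L (f t)) →
      (∀ t, ((eop p c) ^ i) (f t) = 0) →
      ∃ δ : F → F → ZMod p, IsDer D δ ∧ (∀ w, RInv L (δ w)) ∧ ∀ t x, δ (r t) x = f t x := by
    intro i
    induction i with
    | zero =>
      intro _ f _ _ _ h0
      refine ⟨0, der_zero D, fun w x l _ => rfl, fun t x => ?_⟩
      have h1 : f t = 0 := h0 t
      rw [h1]
      rfl
    | succ i ih =>
      intro hi f hfin hn hL' h0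
      obtain ⟨n, hn⟩ := hn
      -- the functions `e^i f_t`
      have hg1 : {t | ((eop p c) ^ i) (f t) ≠ 0}.Finite := by
        refine hfin.subset fun t ht hft => ht ?_
        rw [hft, map_zero]
      have hg2 : ∀ t, RInv (D n) (((eop p c) ^ i) (f t)) := fun t =>
        rinv_eop_pow c (D n) (hF.normal n) i _ (hn t)
      have hg3 : ∀ t, RInv (L ⊔ Subgroup.zpowers c) (((eop p c) ^ i) (f t)) := by
        intro t
        refine rinv_sup c L _ (rinv_eop_pow c L hL i _ (hL' t)) ?_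
        rw [← Module.End.mul_apply, ← pow_succ']
        exact h0 t
      obtain ⟨δ', hδ', hδ'L, hδ'r⟩ := hS (fun t => ((eop p c) ^ i) (f t)) hg1 ⟨n, hg2⟩ hg3
      obtain ⟨n1, hn1⟩ := hδ'.loc
      -- the values on the generators
      let ψ : Fin 3 → F → ZMod p := fun j x => χ x * δ' (gen j) x
      have hψL : ∀ j, RInv L (ψ j) := by
        intro j x l hl
        change χ (x * l) * δ' (gen j) (x * l) = χ x * δ' (gen j) x
        rw [hχM x l (Subgroup.mem_sup_left hl), hδ'L (gen j) x l (Subgroup.mem_sup_left hl)]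
      have hψD : ∀ j, RInv (D (max n0 n1)) (ψ j) := by
        intro j x l hl
        change χ (x * l) * δ' (gen j) (x * l) = χ x * δ' (gen j) x
        rw [hχM x l (Subgroup.mem_sup_right (hF.anti (le_max_left n0 n1) hl)),
          (hn1 (gen j) x l (hF.anti (le_max_right n0 n1) hl)).2]
      have hψ : ∀ j, ((eop p c) ^ (p - 1)) (ψ j) = δ' (gen j) := by
        intro j
        funext x
        rw [eop_pred_apply]
        have h1 : ∀ k ∈ Finset.range p, ψ j (x * c ^ k) = χ (x * c ^ k) * δ' (gen j) x := by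
          intro k _
          change χ (x * c ^ k) * δ' (gen j) (x * c ^ k) = _
          rw [hδ'L (gen j) x _ (Subgroup.mem_sup_right (Subgroup.npow_mem_zpowers c k))]
        rw [Finset.sum_congr rfl h1, ← Finset.sum_mul, hχs, one_mul]
      obtain ⟨δ, hδ, hδg⟩ := hEXT p F gen D hF
        (fun j => ((eop p c) ^ (p - 1 - i)) (ψ j))
        ⟨max n0 n1, fun j => rinv_eop_pow c _ (hF.normal _) _ _ (hψD j)⟩
      have hδL : ∀ w, RInv L (δ w) := by
        refine hDINV p F gen D hF δ hδ L hL fun j => ?_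
        have h1 : δ (gen j) = ((eop p c) ^ (p - 1 - i)) (ψ j) := by
          funext x
          exact hδg j x
        rw [h1]
        exact rinv_eop_pow c L hL _ _ (hψL j)
      have hδ2 : (fun w => ((eop p c) ^ i) (δ w)) = δ' := by
        refine hUNIQ p F gen D hF _ _ (der_eop_pow hF.normal c L hL hcc i δ hδ hδL) hδ' ?_
        intro j x
        have h1 : δ (gen j) = ((eop p c) ^ (p - 1 - i)) (ψ j) := by
          funext x
          exact hδg j x
        change ((eop p c) ^ i) (δ (gen j)) x = _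
        rw [h1, ← Module.End.mul_apply, ← pow_add,
          show i + (p - 1 - i) = p - 1 by omega, hψ j]
      obtain ⟨n3, hn3⟩ := hδ.loc
      have hδr : ∀ t, r t ∈ D n3 → δ (r t) = 0 := by
        intro t ht
        funext x
        have h1 := (hn3 1 x (r t) ht).1
        rw [one_mul] at h1
        rw [h1, der_one hδ]
        rfl
      obtain ⟨δ'', hδ'', hδ''L, hδ''r⟩ := ih (by omega) (fun t => f t - δ (r t)) (by
          refine (hfin.union (hr n3)).subset fun t ht => ?_
          by_contra hcon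
          rw [Set.mem_union, not_or] at hcon
          have h1 : f t = 0 := by
            by_contra h2
            exact hcon.1 h2
          have h2 : r t ∈ D n3 := by
            by_contra h3
            exact hcon.2 h3
          apply ht
          rw [h1, hδr t h2, sub_zero]) ⟨max n n3, fun t => rinv_sub
            (rinv_mono (hF.anti (le_max_left n n3)) (hn t))
            (rinv_mono (hF.anti (le_max_right n n3)) fun x l hl => (hn3 (r t) x l hl).2)⟩
        (fun t => rinv_sub (hL' t) (hδL (r t))) (by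
          intro t
          have h1 : ((eop p c) ^ i) (δ (r t)) = δ' (r t) := congrFun hδ2 (r t)
          have h2 : δ' (r t) = ((eop p c) ^ i) (f t) := funext (hδ'r t)
          rw [map_sub, h1, h2, sub_self])
      refine ⟨δ + δ'', der_add hF.anti hδ hδ'', fun w => rinv_add (hδL w) (hδ''L w), ?_⟩
      intro t x
      change δ (r t) x + δ'' (r t) x = f t x
      rw [hδ''r t x, Pi.sub_apply]
      ring
  intro f h1 h2 h3
  exact key p le_rfl f h1 h2 h3 fun t => eop_p_zero c L hcp (f t) (h3 t)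

end Pool.Agent.H82.PRP
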